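import Pool.Agent.H188.UB.Defs

/-!
# U1: from initial counts to words
-/

set_option autoImplicit false

namespace Pool.Agent.H188.UB

open Pool.Agent.H188.NL (occ)

/-- the word with initial counts `F` -/
def h100_w (F : ℤ → ℤ) (n : ℕ) : List Bool :=
  (List.range n).map (fun i : ℕ => decide (F ((i : ℤ) + 1) = F (i : ℤ) + 1))

theorem h100_cnt (F : ℤ → ℤ) (hF : ∀ x, F (x + 1) = F x ∨ F (x + 1) = F x + 1) (k : ℕ) :
    (((h100_w F k).count true : ℕ) : ℤ) = F k - F 0 := by
  induction k with
  | zero => simp [h100_w]
  | succ k ih =>
    have h1 : h100_w F (k + 1) =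
        h100_w F k ++ [decide (F ((k : ℤ) + 1) = F (k : ℤ) + 1)] := by
      unfold h100_w
      rw [List.range_succ, List.map_append]
      rfl
    rw [h1, List.count_append, Nat.cast_add, ih]
    push_cast
    by_cases h : F ((k : ℤ) + 1) = F (k : ℤ) + 1
    · rw [decide_eq_true h, List.count_singleton_self]
      push_cast
      linarith
    · have h2 : F ((k : ℤ) + 1) = F k := (hF k).resolve_right h
      rw [decide_eq_false h, List.count_eq_zero_of_not_mem (by simp), h2]
      push_cast
      ring

theorem h100_take (F : ℤ → ℤ) (n k : ℕ) (hk : k ≤ n) : (h100_w F n).take k = h100_w F k := by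
  unfold h100_w
  rw [← List.map_take, List.take_range, min_eq_left hk]

theorem h100_len (F : ℤ → ℤ) (n : ℕ) : (h100_w F n).length = n := by
  unfold h100_w
  rw [List.length_map, List.length_range]

theorem t_wrd : S_wrd := by
  intro F n hF
  refine ⟨h100_w F n, h100_len F n, ?_⟩
  set S := (P n).filter (fun z => F (z.1 + z.2) + F (z.1 - z.2) = 2 * F z.1) with hS
  have hsub : occ (h100_w F n) ⊆
      ((S.image (fun z : ℤ × ℤ => ((z.1 - z.2).toNat + 1, (z.1 + z.2).toNat)) :
        Finset (ℕ × ℕ)) : Set (ℕ × ℕ)) := by
    rintro p ⟨x, u, v, y, hw, hu, huv, rfl⟩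
    rw [Prod.mk.injEq] at huv
    have hlu := List.count_true_add_count_false (l := u)
    have hlv := List.count_true_add_count_false (l := v)
    have hupos : 1 ≤ u.length := List.length_pos_of_ne_nil hu
    have hlen : x.length + (u.length + v.length) + y.length = n := by
      have h := congrArg List.length hw
      rw [h100_len] at h
      simp only [List.length_append] at h
      omega
    have t1 : (h100_w F n).take x.length = x := by
      rw [hw, List.append_assoc, List.take_left]
    have t2 : (h100_w F n).take (x ++ u).length = x ++ u := by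
      rw [hw, show x ++ (u ++ v) ++ y = (x ++ u) ++ (v ++ y) by
        simp only [List.append_assoc], List.take_left]
    have t3 : (h100_w F n).take (x ++ (u ++ v)).length = x ++ (u ++ v) := by
      rw [hw, List.take_left]
    rw [List.length_append] at t2
    rw [List.length_append, List.length_append] at t3
    have c1 := h100_cnt F hF x.length
    rw [← h100_take F n x.length (by omega), t1] at c1
    have c2 := h100_cnt F hF (x.length + u.length)
    rw [← h100_take F n (x.length + u.length) (by omega), t2, List.count_append] at c2
    have c3 := h100_cnt F hF (x.length + (u.length + v.length))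
    rw [← h100_take F n (x.length + (u.length + v.length)) (by omega), t3, List.count_append,
      List.count_append] at c3
    push_cast at c1 c2 c3
    rw [Finset.mem_coe, Finset.mem_image]
    refine ⟨(((x.length + u.length : ℕ) : ℤ), ((u.length : ℕ) : ℤ)), ?_, ?_⟩
    · rw [hS, Finset.mem_filter]
      constructor
      · unfold P
        rw [Finset.mem_filter, Finset.mem_product, Finset.mem_Icc, Finset.mem_Icc]
        push_cast
        refine ⟨⟨⟨?_, ?_⟩, ?_, ?_⟩, ?_, ?_⟩
        all_goals omega
      · have e1 : ((x.length + u.length : ℕ) : ℤ) + ((u.length : ℕ) : ℤ) =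
            (x.length : ℤ) + ((u.length : ℤ) + (v.length : ℤ)) := by
          push_cast
          omega
        have e2 : ((x.length + u.length : ℕ) : ℤ) - ((u.length : ℕ) : ℤ) = (x.length : ℤ) := by
          push_cast
          ring
        show F (((x.length + u.length : ℕ) : ℤ) + ((u.length : ℕ) : ℤ)) +
          F (((x.length + u.length : ℕ) : ℤ) - ((u.length : ℕ) : ℤ)) =
          2 * F ((x.length + u.length : ℕ) : ℤ)
        rw [e1, e2]
        push_cast
        have h4 : ((u.count true : ℕ) : ℤ) = ((v.count true : ℕ) : ℤ) := by exact_mod_cast huv.1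
        linarith
    · rw [Prod.mk.injEq]
      simp only [List.length_append]
      push_cast
      constructor
      · omega
      · omega
  calc (occ (h100_w F n)).ncard
      ≤ ((S.image (fun z : ℤ × ℤ => ((z.1 - z.2).toNat + 1, (z.1 + z.2).toNat)) :
          Finset (ℕ × ℕ)) : Set (ℕ × ℕ)).ncard :=
        Set.ncard_le_ncard hsub (Finset.finite_toSet _)
    _ = (S.image (fun z : ℤ × ℤ => ((z.1 - z.2).toNat + 1, (z.1 + z.2).toNat))).card :=
        Set.ncard_coe_finset _
    _ ≤ S.card := Finset.card_image_le

end Pool.Agent.H188.UB
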